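import Mathlib

/-! # The integral `∫ sinh ((1 - 2z) t) / sinh t` -/

namespace Pool.Agent.H63.VC3

open Complex MeasureTheory Filter Topology Set

theorem ClausenA_sinh_le (w : ℂ) : ‖sinh w‖ ≤ ‖w‖ * Real.exp ‖w‖ := by
  have h1 := norm_exp_sub_sum_le_norm_mul_exp w 1
  have h2 := norm_exp_sub_sum_le_norm_mul_exp (-w) 1
  simp only [Finset.sum_range_one, pow_zero, Nat.factorial_zero, Nat.cast_one, div_one, pow_one,
    norm_neg] at h1 h2
  have h3 : sinh w = ((exp w - 1) - (exp (-w) - 1)) / 2 := by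
    rw [Complex.sinh]
    ring
  rw [h3, norm_div, Complex.norm_ofNat]
  have h4 := norm_sub_le (exp w - 1) (exp (-w) - 1)
  linarith only [h1, h2, h4]

theorem ClausenA_sinh_le' (c : ℂ) {t : ℝ} (ht : 0 ≤ t) :
    ‖sinh (c * t)‖ ≤ Real.exp (|c.re| * t) := by
  have h1 : ‖exp (c * t)‖ ≤ Real.exp (|c.re| * t) := by
    rw [Complex.norm_exp]
    apply Real.exp_le_exp.2
    simp only [mul_re, ofReal_re, ofReal_im, mul_zero, sub_zero]
    exact mul_le_mul_of_nonneg_right (le_abs_self _) ht
  have h2 : ‖exp (-(c * t))‖ ≤ Real.exp (|c.re| * t) := by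
    rw [Complex.norm_exp]
    apply Real.exp_le_exp.2
    simp only [neg_re, mul_re, ofReal_re, ofReal_im, mul_zero, sub_zero]
    have := mul_le_mul_of_nonneg_right (neg_le_abs c.re) ht
    linarith
  rw [Complex.sinh, norm_div, Complex.norm_ofNat]
  have h4 := norm_sub_le (exp (c * t)) (exp (-(c * t)))
  linarith only [h1, h2, h4]

theorem ClausenA_le_sinh {t : ℝ} (ht : 0 ≤ t) : t ≤ Real.sinh t := Real.self_le_sinh_iff.2 ht

theorem ClausenA_norm_sinh {t : ℝ} (ht : 0 ≤ t) : ‖sinh (t : ℂ)‖ = Real.sinh t := by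
  rw [← Complex.ofReal_sinh, Complex.norm_real, Real.norm_of_nonneg (Real.sinh_nonneg_iff.2 ht)]

/-- exponential bound of the integrand -/
theorem ClausenA_bound (c : ℂ) (hc : |c.re| < 1) {t : ℝ} (ht : 0 < t) :
    ‖sinh (c * t) / sinh (t : ℂ)‖ ≤
      (‖c‖ * Real.exp ‖c‖ * Real.exp 1 + 4) * Real.exp (-(1 - |c.re|) * t) := by
  have hsp : 0 < Real.sinh t := Real.sinh_pos_iff.2 ht
  rw [norm_div, ClausenA_norm_sinh ht.le, div_le_iff₀ hsp]
  have hc0 := abs_nonneg c.re
  have e0 := Real.exp_pos (-(1 - |c.re|) * t)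
  have e1 : 0 ≤ ‖c‖ * Real.exp ‖c‖ := by positivity
  rcases le_total t 1 with h1 | h1
  · have h2 := ClausenA_sinh_le (c * t)
    rw [norm_mul, Complex.norm_real, Real.norm_of_nonneg ht.le] at h2
    have h3 : Real.exp (‖c‖ * t) ≤ Real.exp ‖c‖ := Real.exp_le_exp.2 (by
      nlinarith only [h1, norm_nonneg c])
    have h4 : ‖sinh (c * t)‖ ≤ ‖c‖ * Real.exp ‖c‖ * t := by
      refine h2.trans ?_
      have : ‖c‖ * t * Real.exp (‖c‖ * t) ≤ ‖c‖ * t * Real.exp ‖c‖ :=
        mul_le_mul_of_nonneg_left h3 (by positivity)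
      linarith
    have h5 : 1 ≤ Real.exp 1 * Real.exp (-(1 - |c.re|) * t) := by
      rw [← Real.exp_add]
      apply Real.one_le_exp
      nlinarith only [hc0, hc, h1]
    have h6 : ‖c‖ * Real.exp ‖c‖ ≤
        (‖c‖ * Real.exp ‖c‖ * Real.exp 1 + 4) * Real.exp (-(1 - |c.re|) * t) := by
      nlinarith only [e0, h5, e1, mul_le_mul_of_nonneg_left h5 e1]
    exact h4.trans (mul_le_mul h6 (ClausenA_le_sinh ht.le) ht.le (e1.trans h6))
  · have h2 := ClausenA_sinh_le' c ht.le
    have h3 : Real.exp t ≤ 4 * Real.sinh t := by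
      have h7 : Real.exp (-t) ≤ 1 := Real.exp_le_one_iff.2 (by linarith)
      have h8 : 2 ≤ Real.exp t := by
        have := Real.add_one_le_exp t
        linarith
      rw [Real.sinh_eq]
      linarith only [h7, h8]
    have h4 : Real.exp (|c.re| * t) = Real.exp (-(1 - |c.re|) * t) * Real.exp t := by
      rw [← Real.exp_add]
      congr 1
      ring
    have h9 := mul_le_mul_of_nonneg_left h3 e0.le
    have h10 : 0 ≤ ‖c‖ * Real.exp ‖c‖ * Real.exp 1 * Real.exp (-(1 - |c.re|) * t) *
        Real.sinh t := by positivity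
    nlinarith only [h2, h4, h9, h10]

theorem ClausenA_re {z : ℂ} (h0 : 0 < z.re) (h1 : z.re < 1) : |(1 - 2 * z).re| < 1 := by
  rw [abs_lt]
  simp only [sub_re, one_re, mul_re, re_ofNat, im_ofNat, zero_mul, sub_zero]
  constructor <;> linarith only [h1, h0]

theorem int_sinh_integrable (z : ℂ) (h0 : 0 < z.re) (h1 : z.re < 1) :
    MeasureTheory.IntegrableOn (fun t : ℝ => sinh ((1 - 2 * z) * t) / sinh (t : ℂ))
      (Set.Ioi 0) := by
  have hc := ClausenA_re h0 h1
  have hb : IntegrableOn (fun t : ℝ => (‖1 - 2 * z‖ * Real.exp ‖1 - 2 * z‖ * Real.exp 1 + 4) *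
      Real.exp (-(1 - |(1 - 2 * z).re|) * t)) (Ioi 0) :=
    (exp_neg_integrableOn_Ioi 0 (by linarith only [hc])).const_mul _
  refine hb.mono' ?_ ?_
  · refine ContinuousOn.aestronglyMeasurable ?_ measurableSet_Ioi
    refine ContinuousOn.div (by fun_prop) (by fun_prop) fun t ht => ?_
    rw [← Complex.ofReal_sinh]
    exact_mod_cast (Real.sinh_pos_iff.2 ht).ne'
  · filter_upwards [ae_restrict_mem measurableSet_Ioi] with t ht
    exact ClausenA_bound _ hc ht

theorem ClausenA_alg (A S E Q P : ℂ) (hS : S ≠ 0) (hQ : Q - 1 ≠ 0) (h : 2 * S * E = 1 - Q) :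
    A / S - A / S * P = 2 * A * E * ((P - 1) / (Q - 1)) := by
  have hE : E = (1 - Q) / (2 * S) := by
    field_simp
    linear_combination h
  have hQ' : 1 - Q = -(Q - 1) := by ring
  rw [hE, hQ']
  field_simp
  ring

theorem ClausenA_partial (z : ℂ) (h0 : 0 < z.re) (h1 : z.re < 1) (N : ℕ) :
    (2 * ∫ t in Set.Ioi (0 : ℝ), sinh ((1 - 2 * z) * t) / sinh (t : ℂ)) -
      2 * (∫ t in Set.Ioi (0 : ℝ), sinh ((1 - 2 * z) * t) / sinh (t : ℂ) *
        Complex.exp (-(2 * N * t))) =
      ∑ n ∈ Finset.range N, (1 / (z + n) + 1 / (z - (n + 1))) := by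
  have hf := int_sinh_integrable z h0 h1
  have hfN : IntegrableOn (fun t : ℝ => sinh ((1 - 2 * z) * t) / sinh (t : ℂ) *
      Complex.exp (-(2 * N * t))) (Ioi 0) := by
    refine Integrable.mono hf (hf.aestronglyMeasurable.mul (by fun_prop)) ?_
    · filter_upwards [ae_restrict_mem measurableSet_Ioi] with t ht
      have ht' : (0 : ℝ) < t := ht
      rw [norm_mul]
      have h2 : ‖Complex.exp (-(2 * N * t))‖ ≤ 1 := by
        rw [Complex.norm_exp, Real.exp_le_one_iff]
        have : (-(2 * (N : ℂ) * t)).re = -(2 * N * t) := by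
          rw [show (-(2 * (N : ℂ) * t)) = ((-(2 * (N : ℝ) * t) : ℝ) : ℂ) by push_cast; ring,
            Complex.ofReal_re]
        rw [this]
        have : 0 ≤ 2 * (N : ℝ) * t := by positivity
        linarith only [this]
      exact mul_le_of_le_one_right (norm_nonneg _) h2
  rw [← mul_sub, ← integral_sub hf hfN]
  have hre := ClausenA_re h0 h1
  rw [abs_lt] at hre
  have hneg1 : ∀ n : ℕ, ((1 - 2 * z) - (2 * n + 1) : ℂ).re < 0 := fun n => by
    have : ((1 - 2 * z) - (2 * n + 1) : ℂ).re = (1 - 2 * z).re - (2 * n + 1) := by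
      simp
    rw [this]
    have : (0 : ℝ) ≤ n := Nat.cast_nonneg n
    linarith only [hre]
  have hneg2 : ∀ n : ℕ, (-(1 - 2 * z) - (2 * n + 1) : ℂ).re < 0 := fun n => by
    have : (-(1 - 2 * z) - (2 * n + 1) : ℂ).re = -(1 - 2 * z).re - (2 * n + 1) := by
      simp
    rw [this]
    have : (0 : ℝ) ≤ n := Nat.cast_nonneg n
    linarith only [hre]
  have hcongr : ∫ t in Set.Ioi (0 : ℝ), (sinh ((1 - 2 * z) * t) / sinh (t : ℂ) -
      sinh ((1 - 2 * z) * t) / sinh (t : ℂ) * Complex.exp (-(2 * N * t))) =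
      ∫ t in Set.Ioi (0 : ℝ), ∑ n ∈ Finset.range N,
        (Complex.exp (((1 - 2 * z) - (2 * n + 1)) * t) -
          Complex.exp ((-(1 - 2 * z) - (2 * n + 1)) * t)) := by
    refine setIntegral_congr_fun measurableSet_Ioi fun t ht => ?_
    have ht' : (0 : ℝ) < t := ht
    have hs : sinh (t : ℂ) ≠ 0 := by
      rw [← Complex.ofReal_sinh]
      exact_mod_cast (Real.sinh_pos_iff.2 ht').ne'
    have hq : Complex.exp (-(2 * t)) ≠ 1 := by
      intro h
      have h2 : ‖Complex.exp (-(2 * (t : ℂ)))‖ = 1 := by rw [h, norm_one]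
      rw [Complex.norm_exp, Real.exp_eq_one_iff] at h2
      have : (-(2 * (t : ℂ))).re = -(2 * t) := by simp
      rw [this] at h2
      linarith only [ht', h2]
    have hsum : ∑ n ∈ Finset.range N, (Complex.exp (((1 - 2 * z) - (2 * n + 1)) * t) -
          Complex.exp ((-(1 - 2 * z) - (2 * n + 1)) * t)) =
        2 * sinh ((1 - 2 * z) * t) * Complex.exp (-t) *
          ∑ n ∈ Finset.range N, Complex.exp (-(2 * t)) ^ n := by
      rw [Finset.mul_sum]
      refine Finset.sum_congr rfl fun n _ => ?_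
      rw [← Complex.exp_nat_mul, Complex.sinh, mul_assoc, ← Complex.exp_add]
      have e1 : ((1 - 2 * z) - (2 * n + 1)) * (t : ℂ) =
          (1 - 2 * z) * t + (-t + n * (-(2 * t))) := by ring
      have e2 : (-(1 - 2 * z) - (2 * n + 1)) * (t : ℂ) =
          -((1 - 2 * z) * t) + (-t + n * (-(2 * t))) := by ring
      rw [e1, e2, Complex.exp_add ((1 - 2 * z) * t), Complex.exp_add (-((1 - 2 * z) * t))]
      ring
    rw [hsum, geom_sum_eq hq, ← Complex.exp_nat_mul]
    have e3 : (N : ℂ) * (-(2 * t)) = -(2 * N * t) := by ring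
    rw [e3]
    have e4 : 2 * sinh (t : ℂ) * Complex.exp (-t) = 1 - Complex.exp (-(2 * t)) := by
      rw [Complex.sinh]
      have : Complex.exp (-(2 * (t : ℂ))) = Complex.exp (-t) * Complex.exp (-t) := by
        rw [← Complex.exp_add]
        congr 1
        ring
      have h5 : Complex.exp (t : ℂ) * Complex.exp (-t) = 1 := by
        rw [← Complex.exp_add, add_neg_cancel, Complex.exp_zero]
      rw [this]
      linear_combination h5
    exact ClausenA_alg _ _ _ _ _ hs (sub_ne_zero.2 hq) e4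
  rw [hcongr, integral_finsetSum]
  · rw [Finset.mul_sum]
    refine Finset.sum_congr rfl fun n _ => ?_
    rw [integral_sub (integrableOn_exp_mul_complex_Ioi (hneg1 n) 0)
      (integrableOn_exp_mul_complex_Ioi (hneg2 n) 0),
      integral_exp_mul_complex_Ioi (hneg1 n) 0, integral_exp_mul_complex_Ioi (hneg2 n) 0]
    simp only [ofReal_zero, mul_zero, Complex.exp_zero]
    have n1 : (z + n : ℂ) ≠ 0 := by
      intro h
      have h2 := congrArg Complex.re h
      simp only [add_re, natCast_re, zero_re] at h2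
      have : (0 : ℝ) ≤ n := Nat.cast_nonneg n
      linarith only [h0, h2]
    have n2 : (z - (n + 1) : ℂ) ≠ 0 := by
      intro h
      have h2 := congrArg Complex.re h
      simp only [sub_re, add_re, natCast_re, one_re, zero_re] at h2
      have : (0 : ℝ) ≤ n := Nat.cast_nonneg n
      linarith
    have d1 : ((1 - 2 * z) - (2 * n + 1) : ℂ) = -2 * (z + n) := by ring
    have d2 : (-(1 - 2 * z) - (2 * n + 1) : ℂ) = 2 * (z - (n + 1)) := by ring
    rw [d1, d2]
    field_simp
    ring
  · intro n _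
    exact (integrableOn_exp_mul_complex_Ioi (hneg1 n) 0).sub
      (integrableOn_exp_mul_complex_Ioi (hneg2 n) 0)

theorem int_sinh (z : ℂ) (h0 : 0 < z.re) (h1 : z.re < 1) :
    2 * ∫ t in Set.Ioi (0 : ℝ), sinh ((1 - 2 * z) * t) / sinh (t : ℂ) =
      Real.pi * cot (Real.pi * z) := by
  have hf := int_sinh_integrable z h0 h1
  have hz : z ∈ Complex.integerComplement := by
    rintro ⟨n, hn⟩
    have h2 := congrArg Complex.re hn
    simp only [intCast_re] at h2
    rw [← h2] at h0 h1
    have h3 : 0 < n := by exact_mod_cast h0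
    have h4 : n < 1 := by exact_mod_cast h1
    omega
  -- the remainder tends to zero
  have hlim : Tendsto (fun N : ℕ => ∫ t in Set.Ioi (0 : ℝ), sinh ((1 - 2 * z) * t) / sinh (t : ℂ) *
      Complex.exp (-(2 * N * t))) atTop (𝓝 (∫ t in Set.Ioi (0 : ℝ), (0 : ℂ))) := by
    refine tendsto_integral_of_dominated_convergence
      (fun t => ‖sinh ((1 - 2 * z) * t) / sinh (t : ℂ)‖) (fun N => ?_) hf.norm (fun N => ?_) ?_
    · exact hf.aestronglyMeasurable.mul (by fun_prop)
    · filter_upwards [ae_restrict_mem measurableSet_Ioi] with t ht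
      have ht' : (0 : ℝ) < t := ht
      rw [norm_mul]
      have h2 : ‖Complex.exp (-(2 * N * t))‖ ≤ 1 := by
        rw [Complex.norm_exp, Real.exp_le_one_iff]
        have : (-(2 * (N : ℂ) * t)).re = -(2 * N * t) := by
          rw [show (-(2 * (N : ℂ) * t)) = ((-(2 * (N : ℝ) * t) : ℝ) : ℂ) by push_cast; ring,
            Complex.ofReal_re]
        rw [this]
        have : 0 ≤ 2 * (N : ℝ) * t := by positivity
        linarith
      exact mul_le_of_le_one_right (norm_nonneg _) h2
    · filter_upwards [ae_restrict_mem measurableSet_Ioi] with t ht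
      have ht' : (0 : ℝ) < t := ht
      have h2 : Tendsto (fun N : ℕ => Complex.exp (-(2 * N * t))) atTop (𝓝 0) := by
        have h3 : ∀ N : ℕ, Complex.exp (-(2 * N * t)) = ((Real.exp (-(2 * t)) ^ N : ℝ) : ℂ) := by
          intro N
          rw [← Real.exp_nat_mul]
          push_cast
          congr 1
          ring
        simp only [h3]
        have h4 : Tendsto (fun N : ℕ => Real.exp (-(2 * t)) ^ N) atTop (𝓝 0) :=
          tendsto_pow_atTop_nhds_zero_of_lt_one (Real.exp_pos _).le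
            (Real.exp_lt_one_iff.2 (by linarith))
        exact_mod_cast (Complex.continuous_ofReal.tendsto 0).comp h4
      simpa using h2.const_mul (sinh ((1 - 2 * z) * t) / sinh (t : ℂ))
  rw [integral_zero] at hlim
  have hlim2 : Tendsto (fun N : ℕ => ∑ n ∈ Finset.range N, (1 / (z + n) + 1 / (z - (n + 1))))
      atTop (𝓝 (2 * ∫ t in Set.Ioi (0 : ℝ), sinh ((1 - 2 * z) * t) / sinh (t : ℂ))) := by
    have h2 := (hlim.const_mul 2).const_sub
      (2 * ∫ t in Set.Ioi (0 : ℝ), sinh ((1 - 2 * z) * t) / sinh (t : ℂ))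
    rw [mul_zero, sub_zero] at h2
    exact h2.congr fun N => ClausenA_partial z h0 h1 N
  -- the cotangent series
  have hser := tendsto_logDeriv_euler_cot_sub hz
  have htail : Tendsto (fun N : ℕ => 1 / (z + N)) atTop (𝓝 0) := by
    have h2 : Tendsto (fun N : ℕ => ‖z + N‖) atTop atTop := by
      have h3 : ∀ N : ℕ, (N : ℝ) ≤ ‖z + N‖ := fun N => by
        refine le_trans ?_ (Complex.re_le_norm _)
        simp only [add_re, natCast_re]
        linarith
      exact tendsto_atTop_mono h3 tendsto_natCast_atTop_atTop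
    rw [tendsto_zero_iff_norm_tendsto_zero]
    simp only [one_div, norm_inv]
    exact tendsto_inv_atTop_zero.comp h2
  have hsum : ∀ N : ℕ, ∑ n ∈ Finset.range N, (1 / (z + n) + 1 / (z - (n + 1))) =
      1 / z + ∑ j ∈ Finset.range N, cotTerm z j - 1 / (z + N) := by
    intro N
    induction N with
    | zero => simp
    | succ N ih =>
      rw [Finset.sum_range_succ, Finset.sum_range_succ, ih]
      simp only [cotTerm]
      push_cast
      ring
  have hlim3 : Tendsto (fun N : ℕ => ∑ n ∈ Finset.range N, (1 / (z + n) + 1 / (z - (n + 1))))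
      atTop (𝓝 (Real.pi * cot (Real.pi * z))) := by
    have h2 := (hser.const_add (1 / z)).sub htail
    have e : 1 / z + (Real.pi * cot (Real.pi * z) - 1 / z) - 0 = Real.pi * cot (Real.pi * z) := by
      ring
    rw [e] at h2
    exact h2.congr fun N => (hsum N).symm
  exact tendsto_nhds_unique hlim2 hlim3

end Pool.Agent.H63.VC3
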