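import Pool.Agent.H94.PA.H63.VC.Defs

/-!
# Double twist knots with two parameters: definitions

Auxiliary definitions for the asymptotics of the colored invariants of the double twist knots with
two twist regions with `p` and `q` full twists.
-/

namespace Pool.Agent.H63.VC3

open Pool.Agent.H63.VC Complex

/-- `log (2 sin (π z))`. -/
noncomputable def hh (z : ℂ) : ℂ := Complex.log (2 * Complex.sin (Real.pi * z))

/-- `∫_0^z log (2 sin (π u)) du`, by an integral formula valid for `0 < re z < 1`. -/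
noncomputable def ff (z : ℂ) : ℂ := (z - 1 / 2) * (Real.log 2 : ℂ) +
  ∫ t in Set.Ioi (0 : ℝ), (Complex.sinh ((1 - 2 * z) * t) / (2 * t) - (1 - 2 * z) / 2) /
    (t * Complex.sinh t)

/-- The real version of `ff`, defined on the whole line. -/
noncomputable def Fr (x : ℝ) : ℝ := -lob (Real.pi * x) / Real.pi

/-- The logarithm of an analytic interpolation of `k ↦ S M k`, for `-1 < re s < M`. -/
noncomputable def LL (M : ℕ) (s : ℂ) : ℂ := (Real.log M : ℂ) / 2 + (s - (M - 1) / 2) *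
  (Real.log 2 : ℂ) + ∫ t in Set.Ioi (0 : ℝ),
    (Complex.sinh ((M - 2 * s - 1) * t / M) / (2 * Complex.sinh (t / M)) + s - (M - 1) / 2) /
    (t * Complex.sinh t)

/-- The growth rate of the terms, `x = k / M`, `l = l / M`. -/
noncomputable def gg (x l : ℝ) : ℝ := 2 * Fr x - Fr (x - l) - Fr (x + l)

/-- `β = (n - 1) / 2`. -/
noncomputable def bt (n : ℕ) : ℝ := ((n : ℝ) - 1) / 2

/-- `y_k = (k + β + 1/2) / M - 1/2`. -/
noncomputable def yk (n M k : ℕ) : ℝ := (k + bt n + 1 / 2) / M - 1 / 2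

/-- `v_l = (l + β) / M - 1/2`. -/
noncomputable def vl (n M l : ℕ) : ℝ := (l + bt n) / M - 1 / 2

/-- The even factor `∏_{j=1}^{n-2} 2 cos (π (v + (j - β) / M))`. -/
noncomputable def Bn (n M : ℕ) (v : ℂ) : ℂ :=
  ∏ j ∈ Finset.range (n - 2), 2 * Complex.cos (Real.pi * (v + ((j : ℂ) + 1 - bt n) / M))

/-- The weight of the `k`-sum, `s = M (y + 1/2) - β - 1/2` interpolates `k`. -/
noncomputable def Cc (n g M : ℕ) (y : ℂ) : ℂ :=
  Complex.exp (LL M (M * (y + 1 / 2) - bt n - 1 / 2) +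
    LL M (M * (y + 1 / 2) - bt n - 1 / 2 + (g - 1)) +
    LL M (M * (y + 1 / 2) - bt n - 1 / 2 + (n - g - 1)) +
    LL M (M * (y + 1 / 2) - bt n - 1 / 2 + (n - 2)))

/-- `w = exp (2 π i (M (v + 1/2) - β))`; it equals `1` exactly at the points `v_l`. -/
noncomputable def ww (n M : ℕ) (v : ℂ) : ℂ :=
  Complex.exp (2 * Real.pi * I * (M * (v + 1 / 2) - bt n))

/-- `ω = w / (1 - w)²`. -/
noncomputable def om (n M : ℕ) (v : ℂ) : ℂ := ww n M v / (1 - ww n M v) ^ 2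

/-- The integral of `F` along the path `-ρ → -ρ + iY → ρ + iY → ρ`. -/
noncomputable def Path (F : ℂ → ℂ) (ρ Y : ℝ) : ℂ :=
  (∫ t in (0 : ℝ)..Y, F (-ρ + t * I) * I) + (∫ x in (-ρ)..ρ, F (x + Y * I)) -
    ∫ t in (0 : ℝ)..Y, F (ρ + t * I) * I

/-- The windows for `k` and `l`. -/
structure Win (n M k1 k2 l1 l2 : ℕ) : Prop where
  hl : l1 + l2 + n = M + 1
  hl' : l1 ≤ l2
  hk : k1 ≤ k2
  a1 : 1 / 4 - 55 / 1000 ≤ (k1 + bt n) / M - 1 / 2
  a2 : (k1 + bt n) / M - 1 / 2 ≤ 1 / 4 - 54 / 1000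
  a3 : 1 / 4 + 54 / 1000 ≤ (k2 + 1 + bt n) / M - 1 / 2
  a4 : (k2 + 1 + bt n) / M - 1 / 2 ≤ 1 / 4 + 55 / 1000
  b1 : 149 / 1000 ≤ (l2 + 1 / 2 + bt n) / M - 1 / 2
  b2 : (l2 + 1 / 2 + bt n) / M - 1 / 2 ≤ 150 / 1000
  big : 1000 * (n + 1) ≤ M

end Pool.Agent.H63.VC3
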